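import Pool.Agent.TFJ.Stmts

set_option autoImplicit false

/-!
# TFJ, row TWC: the twisted theorem
-/

namespace Pool.Agent.TFJ.H92

open scoped BigOperators

open Classical in
theorem twc (hFIN : FinStmt) (hDIV : DivStmt) (hTWB : TwbStmt) (hTWA : TwaStmt) : TwcStmt := by
  intro F G S _ _ _ _ _ α u Y hT hα n e a g₀ he htr hfr
  rcases hTWB F G S α u hT g₀ with h1 | ⟨ρ, hρc, hρ0, hρv, hlast⟩
  · exact AddSubgroup.sum_mem _ fun h hh => h1 _ _ (Finset.mem_filter.mp hh).2
  · -- coordinates of the entries
    have hc0 : ∀ i j, ∃ c : G →₀ F, (c.sum fun h y => y • u h) = e i j := fun i j =>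
      Finsupp.mem_span_range_iff_exists_finsupp.mp (hT.span (e i j))
    choose c hc using hc0
    obtain ⟨T₀, hT₀c, hT₀y, hT₀i⟩ : ∃ T₀ : Finset F,
        (∀ i j h, c i j h ≠ 0 → c i j h ∈ T₀) ∧ (∀ y ∈ Y, (y : F) ∈ T₀) ∧
          (∀ y ∈ Y, ((y⁻¹ : Fˣ) : F) ∈ T₀) := by
      refine ⟨((Finset.univ.biUnion fun i => Finset.univ.biUnion fun j =>
        (c i j).support.image (c i j)) ∪ Finset.image (fun y : Fˣ => (y : F)) Y) ∪
          Finset.image (fun y : Fˣ => ((y⁻¹ : Fˣ) : F)) Y, ?_, ?_, ?_⟩
      · intro i j h hh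
        refine Finset.mem_union_left _ (Finset.mem_union_left _ ?_)
        refine Finset.mem_biUnion.mpr ⟨i, Finset.mem_univ _, ?_⟩
        refine Finset.mem_biUnion.mpr ⟨j, Finset.mem_univ _, ?_⟩
        exact Finset.mem_image_of_mem _ (Finsupp.mem_support_iff.mpr hh)
      · intro y hy
        exact Finset.mem_union_left _ (Finset.mem_union_right _
          (Finset.mem_image.mpr ⟨y, hy, rfl⟩))
      · intro y hy
        exact Finset.mem_union_right _ (Finset.mem_image.mpr ⟨y, hy, rfl⟩)
    obtain ⟨R, hR⟩ : ∃ R : Subring F, R = Subring.closure (T₀ : Set F) := ⟨_, rfl⟩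
    have hTR : ∀ x ∈ T₀, x ∈ R := fun x hx => hR ▸ Subring.subset_closure hx
    have hYR : ∀ v ∈ Subgroup.closure (Y : Set Fˣ), (v : F) ∈ R ∧ ((v⁻¹ : Fˣ) : F) ∈ R := by
      intro v hv
      induction hv using Subgroup.closure_induction with
      | mem y hy => exact ⟨hTR _ (hT₀y y hy), hTR _ (hT₀i y hy)⟩
      | one => simp
      | mul x y _ _ hx hy =>
        refine ⟨?_, ?_⟩
        · rw [Units.val_mul]; exact R.mul_mem hx.1 hy.1
        · rw [mul_inv_rev, Units.val_mul]; exact R.mul_mem hy.2 hx.2
      | inv x _ hx => exact ⟨hx.2, by rw [inv_inv]; exact hx.1⟩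
    have hαR : ∀ g h, (α g h : F) ∈ R := fun g h => (hYR _ (hα g h)).1
    have hρR : ∀ h, ρ (u h) ∈ R := by
      intro h
      by_cases hh : IsConj g₀ h
      · obtain ⟨v, hv, hvρ⟩ := hρv h hh
        rw [hvρ]
        have hle : Subgroup.closure (Set.range fun q : G × G => α q.1 q.2) ≤
            Subgroup.closure (Y : Set Fˣ) := by
          rw [Subgroup.closure_le]
          rintro _ ⟨q, rfl⟩
          exact hα q.1 q.2
        exact (hYR v (hle hv)).1
      · rw [hρ0 h hh]; exact R.zero_mem
    have hcR : ∀ i j h, c i j h ∈ R := by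
      intro i j h
      by_cases hh : c i j h = 0
      · rw [hh]; exact R.zero_mem
      · exact hTR _ (hT₀c i j h hh)
    obtain ⟨T, A, hA, hTm, hAm⟩ := hTWA F G S α u hT R hαR
    have heT : ∀ i j, e i j ∈ T := fun i j => (hTm _).2 ⟨c i j, hcR i j, (hc i j).symm⟩
    -- the matrix over `T`
    obtain ⟨e', he'⟩ : ∃ e' : Matrix (Fin n) (Fin n) T, ∀ i j, (e' i j : S) = e i j :=
      ⟨Matrix.of fun i j => ⟨e i j, heT i j⟩, fun i j => rfl⟩
    have hee : e' * e' = e' := by
      ext i j
      have h2 := congrFun (congrFun he i) j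
      rw [Matrix.mul_apply] at h2 ⊢
      rw [AddSubmonoidClass.coe_finsetSum, he' i j, ← h2]
      refine Finset.sum_congr rfl fun k _ => ?_
      rw [← he' i k, ← he' k j]
      rfl
    have htr' : ((Matrix.trace e' : T) : S) = Matrix.trace e := by
      unfold Matrix.trace
      rw [AddSubmonoidClass.coe_finsetSum]
      refine Finset.sum_congr rfl fun k _ => ?_
      exact he' k k
    have haR : ∀ h, a h ∈ R := by
      obtain ⟨b, hb, hb2⟩ := (hTm _).1 (Matrix.trace e').2
      have hba : b = a := by
        apply hT.indep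
        rw [Finsupp.linearCombination_apply, Finsupp.linearCombination_apply, ← hb2, htr', htr]
      rw [← hba]; exact hb
    have hauT : ∀ g, a g • u g ∈ T := by
      intro g
      refine (hTm _).2 ⟨Finsupp.single g (a g), ?_, ?_⟩
      · intro h
        by_cases hh : g = h
        · subst hh; rw [Finsupp.single_eq_same]; exact haR g
        · rw [Finsupp.single_eq_of_ne' hh]; exact R.zero_mem
      · rw [Finsupp.sum_single_index (zero_smul F (u g))]
    obtain ⟨c', hc', hc's⟩ : ∃ c' : G →₀ T, (∀ g, (c' g : S) = a g • u g) ∧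
        c'.support ⊆ a.support := by
      refine ⟨Finsupp.onFinset a.support (fun g => ⟨a g • u g, hauT g⟩) ?_, fun g => rfl,
        Finsupp.support_onFinset_subset⟩
      intro g hg
      rw [Finsupp.mem_support_iff]
      intro h0
      apply hg
      apply Subtype.ext
      change a g • u g = 0
      rw [h0, zero_smul]
    have hc'A : ∀ g, c' g ∈ A g := fun g => (hAm g _).2 ⟨a g, haR g, hc' g⟩
    have hc'sum : (c'.sum fun _ z => z) = Matrix.trace e' := by
      apply Subtype.ext
      rw [htr', htr, Finsupp.sum, Finsupp.sum, AddSubmonoidClass.coe_finsetSum]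
      rw [← Finset.sum_subset hc's]
      · exact Finset.sum_congr rfl fun g _ => hc' g
      · intro g _ hg
        rw [← hc' g, Finsupp.notMem_support_iff.mp hg]
        rfl
    have hF := hFIN G T A hA n e' c' g₀ hee hc'A hc'sum hfr
    have hcl : ((clPart g₀ c' : T) : S) =
        ∑ h ∈ a.support.filter (fun h => IsConj g₀ h), a h • u h := by
      unfold clPart
      rw [AddSubmonoidClass.coe_finsetSum]
      rw [← Finset.sum_subset (Finset.filter_subset_filter (fun h => IsConj g₀ h) hc's)]
      · exact Finset.sum_congr rfl fun g _ => hc' g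
      · intro g hg hg2
        have h3 : g ∉ c'.support := fun h4 =>
          hg2 (Finset.mem_filter.mpr ⟨h4, (Finset.mem_filter.mp hg).2⟩)
        rw [← hc' g, Finsupp.notMem_support_iff.mp h3]
        rfl
    have hker : ∀ z ∈ Comm T, ρ (z : S) = 0 := by
      intro z hz
      induction hz using AddSubgroup.closure_induction with
      | mem z hz =>
        obtain ⟨x, y, rfl⟩ := hz
        have h5 : ((x * y - y * x : T) : S) = (x : S) * y - (y : S) * x := rfl
        rw [h5, map_sub, hρc, sub_self]
      | zero => exact map_zero ρ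
      | add x y _ _ hx hy =>
        have h5 : ((x + y : T) : S) = (x : S) + y := rfl
        rw [h5, map_add, hx, hy, add_zero]
      | neg x _ hx =>
        have h5 : ((-x : T) : S) = -(x : S) := rfl
        rw [h5, map_neg, hx, neg_zero]
    have hρs : ∀ s : T, ρ (s : S) ∈ R := by
      intro s
      obtain ⟨b, hb, hb2⟩ := (hTm _).1 s.2
      rw [hb2, Finsupp.sum, map_sum]
      refine R.sum_mem fun h _ => ?_
      rw [map_smul, smul_eq_mul]
      exact R.mul_mem (hb h) (hρR h)
    have hzero : ρ (∑ h ∈ a.support.filter (fun h => IsConj g₀ h), a h • u h) = 0 := by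
      apply hDIV F T₀
      intro N hN
      obtain ⟨s, hs⟩ := hF N hN
      refine ⟨ρ (s : S), hR ▸ hρs s, ?_⟩
      have h6 := hker _ hs
      have h7 : ((clPart g₀ c' - N • s : T) : S) = ((clPart g₀ c' : T) : S) - N • (s : S) := rfl
      rw [h7, map_sub, map_nsmul, hcl, sub_eq_zero] at h6
      exact h6
    have hsum : ((a.filter fun h => IsConj g₀ h).sum fun h y => y • u h) =
        ∑ h ∈ a.support.filter (fun h => IsConj g₀ h), a h • u h := by
      rw [Finsupp.sum, Finsupp.support_filter]
      refine Finset.sum_congr rfl fun g hg => ?_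
      rw [Finsupp.filter_apply_pos _ _ (Finset.mem_filter.mp hg).2]
    have hfin := hlast (a.filter fun h => IsConj g₀ h)
      (fun h hh => Finsupp.filter_apply_neg _ _ hh) (by rw [hsum]; exact hzero)
    rw [hsum] at hfin
    exact hfin

end Pool.Agent.TFJ.H92
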